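import Pool.Agent.Lib.EFP.Final

set_option autoImplicit false

/-!
# MP_eff485_an: a dimension-free gap for the norms of all nontrivial projections

For every `η > 0` there is `δ > 0` such that in every dimension `n` there is a real normed space `F`
which is `(1 + η)`-isomorphic to Euclidean `n`-space and in which every subspace `S ≠ F` of dimension
at least two is worse than `(1 + δ)`-complemented: every projection of `F` onto `S` has norm at least
`1 + δ`. So the sequence `c 1 = 1`, `c k = 1 + δ` for `k ≥ 2` is admissible in every dimension.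
-/

namespace Pool.Agent.Results.MP_eff485_an.UniformGap

theorem result :
    ∀ η : ℝ, 0 < η → ∃ δ : ℝ, 0 < δ ∧ ∀ n : ℕ,
      ∃ (F : Type) (_ : NormedAddCommGroup F) (_ : NormedSpace ℝ F) (_ : FiniteDimensional ℝ F),
        Module.finrank ℝ F = n ∧
        (∃ e : F ≃ₗ[ℝ] EuclideanSpace ℝ (Fin n), ∀ x : F, ‖e x‖ ≤ ‖x‖ ∧ ‖x‖ ≤ (1 + η) * ‖e x‖) ∧
        ∀ S : Submodule ℝ F, 2 ≤ Module.finrank ℝ S → S ≠ ⊤ →
          ∀ P : F →L[ℝ] F, (∀ x, P x ∈ S) → (∀ x ∈ S, P x = x) → 1 + δ ≤ ‖P‖ := by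
  intro η hη
  obtain ⟨δ, hδ, h⟩ := Pool.Agent.EFP.gap η hη
  refine ⟨δ, hδ, fun n => ?_⟩
  obtain ⟨F, i1, i2, i3, e, h1, h2, h3⟩ := h n
  exact ⟨F, i1, i2, i3, h1, ⟨e, h2⟩, h3⟩

end Pool.Agent.Results.MP_eff485_an.UniformGap
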